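import Pool.Agent.Helper84.OneMaxFinal
import Pool.Agent.Helper84.OneMaxBlock
import Pool.Agent.Helper84.OneMaxNum

set_option autoImplicit false

/-!
# The (1+1) elitist Las Vegas black-box complexity of OneMax is linear

Algorithms, samples, running time and complexity are written out as in the problem file, and the
bounds `c n ≤ complexity n ≤ C n` are proved for every `n ≥ 1`.
-/

namespace Pool.Agent.Results.MP_f3ccbb_lc.LinearComplexity

open scoped ENNReal

/-! ### Definitions -/

/-- The search space: bit strings of length `n`. -/
abbrev Pt (n : ℕ) : Type := Fin n → Bool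

/-- The OneMax function with target `z`: the number of positions in which `x` agrees with `z`. -/
noncomputable def om {n : ℕ} (z x : Pt n) : ℝ :=
  ((Finset.univ.filter fun i => x i = z i).card : ℝ)

/-- A (1+1) elitist black-box algorithm: the law of the first sample; for each current point, the
law of the next sample; and, for a current point `x` and a sample `y` of the same value, the law
of the decision between them (`true` means that `y` is kept, `false` that `x` is kept). -/
structure Algorithm (n : ℕ) : Type where
  init : PMF (Pt n)
  offspring : Pt n → PMF (Pt n)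
  tie : Pt n → Pt n → PMF Bool

/-- The law of the point kept by `A` when the objective is `f`, the current point is `x` and the
new sample is `y`: the point of larger value, and in case of equality the one which the tie rule
of `A` selects. -/
noncomputable def kept {n : ℕ} (A : Algorithm n) (f : Pt n → ℝ) (x y : Pt n) : PMF (Pt n) :=
  if f x < f y then PMF.pure y
  else if f y < f x then PMF.pure x
  else (A.tie x y).map fun b => if b = true then y else x

/-- The joint law of the list of the first `k + 1` samples (latest first) and of the current point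
after them, when `A` is run on `f`. -/
noncomputable def history {n : ℕ} (A : Algorithm n) (f : Pt n → ℝ) :
    ℕ → PMF (List (Pt n) × Pt n)
  | 0 => A.init.map fun x => ([x], x)
  | k + 1 => (history A f k).bind fun s => (A.offspring s.2).bind fun y =>
      (kept A f s.2 y).map fun w => (y :: s.1, w)

/-- `x` is a maximiser of `f`. -/
def IsMaximiser {n : ℕ} (f : Pt n → ℝ) (x : Pt n) : Prop := ∀ y, f y ≤ f x

/-- The probability that none of the first `k` samples is a maximiser of `f`. -/
noncomputable def lateProb {n : ℕ} (A : Algorithm n) (f : Pt n → ℝ) : ℕ → ℝ≥0∞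
  | 0 => 1
  | k + 1 => (history A f k).toOuterMeasure {s | ∀ x ∈ s.1, ¬ IsMaximiser f x}

/-- The expectation of the running time `T` of `A` on `f` (the number of samples up to and
including the first maximiser of `f`), as the sum over `k ≥ 0` of the probabilities of `T > k`. -/
noncomputable def expectedTime {n : ℕ} (A : Algorithm n) (f : Pt n → ℝ) : ℝ≥0∞ :=
  ∑' k : ℕ, lateProb A f k

/-- The (1+1) elitist Las Vegas black-box complexity of OneMax. -/
noncomputable def complexity (n : ℕ) : ℝ≥0∞ :=
  ⨅ A : Algorithm n, ⨆ z : Pt n, expectedTime A (om z)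

/-! ### From the history to the chain of current points -/

open Pool.Agent.Helper84.OneMaxAbs

/-- the joint law of the next sample and of the answer of the tie rule -/
noncomputable def joint {n : ℕ} (A : Algorithm n) (x : Pt n) : PMF (Pt n × Bool) :=
  (A.offspring x).bind fun y => (A.tie x y).map fun b => (y, b)

theorem om_self {n : ℕ} (z : Pt n) : om z z = n := by
  simp [om]

theorem om_le {n : ℕ} (z x : Pt n) : om z x ≤ n := by
  unfold om
  have := Finset.card_filter_le (Finset.univ : Finset (Fin n)) (fun i => x i = z i)
  rw [Finset.card_univ, Fintype.card_fin] at this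
  exact_mod_cast this

theorem eq_of_om {n : ℕ} (z x : Pt n) (h : om z x = n) : x = z := by
  unfold om at h
  have h1 : (Finset.univ.filter fun i => x i = z i).card = (Finset.univ : Finset (Fin n)).card := by
    rw [Finset.card_univ, Fintype.card_fin]
    exact_mod_cast h
  have h2 := Finset.card_filter_eq_iff.mp h1
  funext i
  exact h2 i (Finset.mem_univ i)

theorem isMaximiser_om {n : ℕ} (z x : Pt n) : IsMaximiser (om z) x ↔ x = z := by
  constructor
  · intro h
    refine eq_of_om z x (le_antisymm (om_le z x) ?_)
    have := h z
    rwa [om_self] at this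
  · rintro rfl y
    rw [om_self]
    exact om_le x y

theorem bind_kept {n : ℕ} (A : Algorithm n) (z x : Pt n) :
    ((A.offspring x).bind fun y => kept A (om z) x y) = ker (joint A) z x := by
  unfold ker joint
  rw [PMF.bind_bind]
  congr 1
  funext y
  rw [PMF.bind_map]
  unfold kept om
  simp only [Nat.cast_lt]
  by_cases h1 : (Finset.univ.filter fun i => x i = z i).card
      < (Finset.univ.filter fun i => y i = z i).card
  · rw [if_pos h1]
    have : ((fun yb : Pt n × Bool => PMF.pure (if (Finset.univ.filter (fun i => x i = z i)).card
          < (Finset.univ.filter (fun i => yb.1 i = z i)).card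
        ∨ ((Finset.univ.filter (fun i => x i = z i)).card
          = (Finset.univ.filter (fun i => yb.1 i = z i)).card ∧ yb.2 = true)
      then yb.1 else x)) ∘ fun b => (y, b)) = fun _ => PMF.pure y := by
      funext b
      simp [h1]
    rw [this, PMF.bind_const]
  · rw [if_neg h1]
    by_cases h2 : (Finset.univ.filter fun i => y i = z i).card
        < (Finset.univ.filter fun i => x i = z i).card
    · rw [if_pos h2]
      have : ((fun yb : Pt n × Bool => PMF.pure (if (Finset.univ.filter (fun i => x i = z i)).card
            < (Finset.univ.filter (fun i => yb.1 i = z i)).card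
          ∨ ((Finset.univ.filter (fun i => x i = z i)).card
            = (Finset.univ.filter (fun i => yb.1 i = z i)).card ∧ yb.2 = true)
        then yb.1 else x)) ∘ fun b => (y, b)) = fun _ => PMF.pure x := by
        funext b
        have h3 : ¬ ((Finset.univ.filter (fun i => x i = z i)).card
            = (Finset.univ.filter (fun i => y i = z i)).card) := by omega
        simp [h1, h3]
      rw [this, PMF.bind_const]
    · rw [if_neg h2]
      have : ((fun yb : Pt n × Bool => PMF.pure (if (Finset.univ.filter (fun i => x i = z i)).card
            < (Finset.univ.filter (fun i => yb.1 i = z i)).card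
          ∨ ((Finset.univ.filter (fun i => x i = z i)).card
            = (Finset.univ.filter (fun i => yb.1 i = z i)).card ∧ yb.2 = true)
        then yb.1 else x)) ∘ fun b => (y, b)) = PMF.pure ∘ fun b => if b = true then y else x := by
        funext b
        have h3 : ((Finset.univ.filter (fun i => x i = z i)).card
            = (Finset.univ.filter (fun i => y i = z i)).card) := by omega
        simp [h3]
      rw [this, PMF.bind_pure_comp]

theorem map_snd_history {n : ℕ} (A : Algorithm n) (z : Pt n) (k : ℕ) :
    (history A (om z) k).map Prod.snd = iter (ker (joint A) z) k A.init := by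
  induction k with
  | zero =>
    simp only [history, iter, Function.iterate_zero, id_eq]
    rw [PMF.map_comp]
    exact PMF.map_id _
  | succ k ih =>
    rw [iter_succ', ← ih, PMF.bind_map]
    simp only [history, PMF.map_bind, PMF.map_comp]
    congr 1
    funext s
    simp only [Function.comp_apply]
    rw [← bind_kept]
    congr 1
    funext y
    exact PMF.map_id _

theorem mem_history {n : ℕ} (A : Algorithm n) (z : Pt n) (k : ℕ) :
    ∀ s ∈ (history A (om z) k).support, (z ∈ s.1 ↔ s.2 = z) := by
  induction k with
  | zero =>
    intro s hs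
    simp only [history, PMF.support_map, Set.mem_image] at hs
    obtain ⟨x, _, rfl⟩ := hs
    simp [eq_comm]
  | succ k ih =>
    intro s hs
    simp only [history, PMF.mem_support_bind_iff] at hs
    obtain ⟨t, ht, y, _, hs⟩ := hs
    rw [PMF.support_map, Set.mem_image] at hs
    obtain ⟨w, hw, rfl⟩ := hs
    have h0 := ih t ht
    simp only [List.mem_cons, h0]
    have hw' : w = t.2 ∨ w = y := by
      unfold kept at hw
      split at hw
      · right
        simpa using hw
      · split at hw
        · left
          simpa using hw
        · rw [PMF.support_map, Set.mem_image] at hw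
          obtain ⟨b, _, rfl⟩ := hw
          cases b <;> simp
    constructor
    · rintro (h | h)
      · subst h
        unfold kept at hw
        by_cases hx : t.2 = z
        · rcases hw' with h | h <;> simp [h, hx]
        · have h1 : om z t.2 < om z z := by
            refine lt_of_le_of_ne (by rw [om_self]; exact om_le _ _) ?_
            intro h2
            rw [om_self] at h2
            exact hx (eq_of_om _ _ h2)
          rw [if_pos h1] at hw
          simpa using hw
      · rw [h] at hw hw'
        unfold kept at hw
        rcases hw' with h' | h'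
        · exact h'
        · by_cases hy : y = z
          · rw [h', hy]
          · have h1 : om z y < om z z := by
              refine lt_of_le_of_ne (by rw [om_self]; exact om_le _ _) ?_
              intro h2
              rw [om_self] at h2
              exact hy (eq_of_om _ _ h2)
            rw [if_neg (not_lt.mpr h1.le), if_pos h1] at hw
            simpa using hw
    · intro h
      rcases hw' with h' | h'
      · right
        rw [← h', h]
      · left
        rw [← h', h]

theorem lateProb_eq {n : ℕ} (A : Algorithm n) (z : Pt n) (k : ℕ) :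
    lateProb A (om z) (k + 1) = 1 - (iter (ker (joint A) z) k A.init) z := by
  classical
  have h1 : lateProb A (om z) (k + 1)
      = (history A (om z) k).toOuterMeasure (Prod.snd ⁻¹' {x | x ≠ z}) := by
    unfold lateProb
    apply PMF.toOuterMeasure_apply_eq_of_inter_support_eq
    ext s
    simp only [Set.mem_inter_iff, Set.mem_ofPred_eq, Set.mem_preimage, isMaximiser_om]
    refine and_congr_left fun hs => ?_
    have h2 := mem_history A z k s hs
    constructor
    · intro h h3
      exact h z (h2.mpr h3) rfl
    · intro h x hx h3
      exact h (h2.mp (h3 ▸ hx))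
  rw [h1, ← PMF.toOuterMeasure_map_apply, map_snd_history, PMF.toOuterMeasure_apply_fintype]
  set ν := iter (ker (joint A) z) k A.init
  have h2 : ν z + ∑ x ∈ Finset.univ.erase z, ν x = 1 := by
    rw [Finset.add_sum_erase _ _ (Finset.mem_univ z)]
    exact sum_one ν
  have h3 : ν z ≠ ∞ := PMF.apply_ne_top ν z
  rw [← h2, ENNReal.add_sub_cancel_left h3, ← Finset.add_sum_erase _ _ (Finset.mem_univ z)]
  simp only [Set.mem_ofPred_eq, ne_eq, not_true_eq_false, not_false_eq_true,
    Set.indicator_of_notMem, zero_add]
  refine Finset.sum_congr rfl fun x hx => ?_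
  rw [Set.indicator_of_mem]
  exact Finset.ne_of_mem_erase hx

theorem expectedTime_eq {n : ℕ} (A : Algorithm n) (z : Pt n) :
    expectedTime A (om z) = 1 + ∑' k : ℕ, (1 - (iter (ker (joint A) z) k A.init) z) := by
  unfold expectedTime
  rw [tsum_eq_zero_add' ENNReal.summable]
  simp only [lateProb_eq]
  rfl

/-! ### Every joint law comes from an algorithm -/

theorem exists_joint {n : ℕ} (init : PMF (Pt n)) (step : Pt n → PMF (Pt n × Bool)) :
    ∃ A : Algorithm n, A.init = init ∧ joint A = step := by
  classical
  have hm : ∀ x y, ((step x).map Prod.fst) y = ∑ b : Bool, step x (y, b) := by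
    intro x y
    rw [PMF.map_apply, tsum_fintype, Fintype.sum_prod_type]
    rw [Finset.sum_eq_single y]
    · simp
    · intro y' _ hy'
      simp [Ne.symm hy']
    · simp
  have hs : ∀ x y, ((step x).map Prod.fst) y ≠ 0 →
      ∑ b : Bool, step x (y, b) / ((step x).map Prod.fst) y = 1 := by
    intro x y h
    have : ∑ b : Bool, step x (y, b) / ((step x).map Prod.fst) y
        = (∑ b : Bool, step x (y, b)) / ((step x).map Prod.fst) y := by
      simp only [ENNReal.div_eq_inv_mul, Finset.mul_sum]
    rw [this, ← hm]
    exact ENNReal.div_self h (PMF.apply_ne_top _ _)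
  refine ⟨⟨init, fun x => (step x).map Prod.fst, fun x y =>
    if h : ((step x).map Prod.fst) y ≠ 0 then
      PMF.ofFintype (fun b => step x (y, b) / ((step x).map Prod.fst) y) (hs x y h)
    else PMF.pure true⟩, rfl, ?_⟩
  funext x
  refine PMF.ext fun yb => ?_
  obtain ⟨y, b⟩ := yb
  unfold joint
  rw [PMF.bind_apply, tsum_fintype, Finset.sum_eq_single y]
  · dsimp only
    rw [PMF.map_apply _ _ (y, b), tsum_fintype, Finset.sum_eq_single b]
    · simp only [if_true]
      by_cases h : ((step x).map Prod.fst) y ≠ 0
      · rw [dif_pos h, PMF.ofFintype_apply]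
        exact ENNReal.mul_div_cancel h (PMF.apply_ne_top _ _)
      · rw [dif_neg h]
        have h := not_not.mp h
        rw [h, zero_mul]
        rw [hm] at h
        exact ((Finset.sum_eq_zero_iff.mp h) b (Finset.mem_univ b)).symm
    · intro b' _ hb'
      simp [Ne.symm hb']
    · simp
  · intro y' _ hy'
    have : (PMF.map (fun b => (y', b)) (if h : ((step x).map Prod.fst) y' ≠ 0 then
      PMF.ofFintype (fun b => step x (y', b) / ((step x).map Prod.fst) y') (hs x y' h)
      else PMF.pure true)) (y, b) = 0 := by
      rw [PMF.map_apply, tsum_fintype]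
      refine Finset.sum_eq_zero fun b' _ => ?_
      simp [Ne.symm hy']
    dsimp only
    rw [this, mul_zero]
  · simp

/-! ### Uniform sampling -/

theorem uniform_bound (n : ℕ) :
    ∃ A : Algorithm n, ∀ z : Pt n, expectedTime A (om z) ≤ 1 + 2 ^ n := by
  classical
  let A : Algorithm n := ⟨PMF.uniformOfFintype _, fun _ => PMF.uniformOfFintype _,
    fun _ _ => PMF.pure true⟩
  refine ⟨A, fun z => ?_⟩
  rw [expectedTime_eq]
  have hle : ∀ ν : PMF (Pt n), Ex ν (fun x => if x = z then 0 else (2 : ℝ≥0∞) ^ n)
      = (1 - ν z) * 2 ^ n := by
    intro ν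
    have h2 : ν z + ∑ x ∈ Finset.univ.erase z, ν x = 1 := by
      rw [Finset.add_sum_erase _ _ (Finset.mem_univ z)]
      exact sum_one ν
    have h3 : ν z ≠ ∞ := PMF.apply_ne_top ν z
    unfold Ex
    rw [← h2, ENNReal.add_sub_cancel_left h3, ← Finset.add_sum_erase _ _ (Finset.mem_univ z)]
    simp only [if_true, mul_zero, zero_add, Finset.sum_mul]
    refine Finset.sum_congr rfl fun x hx => ?_
    rw [if_neg (Finset.ne_of_mem_erase hx)]
  have hz : ker (joint A) z z = PMF.pure z := by
    rw [← bind_kept]
    have : ∀ y, kept A (om z) z y = PMF.pure z := by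
      intro y
      unfold kept
      by_cases hy : y = z
      · subst hy
        simp [A, PMF.pure_map]
      · have h1 : om z y < om z z := by
          refine lt_of_le_of_ne (by rw [om_self]; exact om_le _ _) ?_
          intro h2
          rw [om_self] at h2
          exact hy (eq_of_om _ _ h2)
        rw [if_neg (not_lt.mpr h1.le), if_pos h1]
    simp only [this, PMF.bind_const]
  have hx : ∀ x, x ≠ z → ((2 : ℝ≥0∞) ^ n)⁻¹ ≤ ker (joint A) z x z := by
    intro x hx
    rw [← bind_kept, PMF.bind_apply, tsum_fintype]
    refine le_trans ?_ (Finset.single_le_sum (f := fun y => (A.offspring x) y * (kept A (om z) x y) z)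
      (fun _ _ => zero_le) (Finset.mem_univ z))
    have h1 : om z x < om z z := by
      refine lt_of_le_of_ne (by rw [om_self]; exact om_le _ _) ?_
      intro h2
      rw [om_self] at h2
      exact hx (eq_of_om _ _ h2)
    have h2 : kept A (om z) x z = PMF.pure z := by
      unfold kept
      rw [if_pos h1]
    rw [h2]
    simp [A, PMF.uniformOfFintype_apply]
  have htop : (2 : ℝ≥0∞) ^ n ≠ ∞ := by simp
  have hne : (2 : ℝ≥0∞) ^ n ≠ 0 := by simp
  have hd := drift (ker (joint A) z) z (fun x => if x = z then 0 else (2 : ℝ≥0∞) ^ n) hz ?_ A.init
  · refine add_le_add le_rfl (hd.trans ?_)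
    rw [hle]
    calc (1 - A.init z) * 2 ^ n ≤ 1 * 2 ^ n := by gcongr; exact tsub_le_self
      _ = 2 ^ n := one_mul _
  · intro x hxz
    rw [hle, if_neg hxz]
    calc 1 + (1 - ker (joint A) z x z) * 2 ^ n
        ≤ 1 + (1 - ((2 : ℝ≥0∞) ^ n)⁻¹) * 2 ^ n := by
          gcongr
          exact hx x hxz
      _ = 2 ^ n := by
          rw [ENNReal.sub_mul (fun _ _ => htop), one_mul, ENNReal.inv_mul_cancel hne htop]
          exact add_tsub_cancel_of_le (one_le_pow₀ (by norm_num))

/-! ### The theorem -/

/-- There are positive constants `c` and `C` such that for every `n ≥ 1` the (1+1) elitist Las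
Vegas black-box complexity of OneMax on `n` bits lies between `c n` and `C n`. -/
theorem result : ∃ c C : ℝ, 0 < c ∧ 0 < C ∧ ∀ n : ℕ, 1 ≤ n →
    ENNReal.ofReal (c * n) ≤ complexity n ∧ complexity n ≤ ENNReal.ofReal (C * n) := by
  obtain ⟨C, n0, hup⟩ := Pool.Agent.Helper84.OneMax.upper Pool.Agent.Helper84.OneMax.block
    Pool.Agent.Helper84.OneMax.params
  refine ⟨1 / 2, max C (1 + 2 ^ n0), by norm_num, lt_max_of_lt_right (by positivity),
    fun n hn => ⟨?_, ?_⟩⟩
  · refine le_iInf fun A => ?_
    obtain ⟨z, hz⟩ := lower n A.init (joint A)
    refine le_trans ?_ (le_iSup (fun z => expectedTime A (om z)) z)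
    rw [expectedTime_eq]
    exact hz
  · have hn1 : (1 : ℝ) ≤ (n : ℝ) := by exact_mod_cast hn
    rcases le_or_gt n0 n with h | h
    · obtain ⟨init, step, hz⟩ := hup n h
      obtain ⟨A, hA, hj⟩ := exists_joint init step
      refine (iInf_le _ A).trans (iSup_le fun z => ?_)
      rw [expectedTime_eq, hA, hj]
      refine (hz z).trans (ENNReal.ofReal_le_ofReal ?_)
      gcongr
      exact le_max_left _ _
    · obtain ⟨A, hA⟩ := uniform_bound n
      refine (iInf_le _ A).trans (iSup_le fun z => ?_)
      refine (hA z).trans ?_
      have h1 : (1 : ℝ≥0∞) + 2 ^ n = ENNReal.ofReal (1 + 2 ^ n) := by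
        rw [ENNReal.ofReal_add (by norm_num) (by positivity), ENNReal.ofReal_one,
          ENNReal.ofReal_pow (by norm_num)]
        norm_num
      rw [h1]
      apply ENNReal.ofReal_le_ofReal
      have h2 : (2 : ℝ) ^ n ≤ 2 ^ n0 := pow_le_pow_right₀ (by norm_num) h.le
      have h3 : (1 : ℝ) + 2 ^ n0 ≤ max C (1 + 2 ^ n0) := le_max_right _ _
      have h4 : (0 : ℝ) < 1 + 2 ^ n0 := by positivity
      nlinarith

end Pool.Agent.Results.MP_f3ccbb_lc.LinearComplexity
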